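import Pool.Agent.H.MP_85b181_al.I

set_option autoImplicit false

namespace Pool.Agent.Results.MP_85b181_al.Functor

universe u

/-- conical commutative monoid -/
def Conical (M : Type u) [AddCommMonoid M] : Prop := ∀ x y : M, x + y = 0 → x = 0 ∧ y = 0

open Pool.Agent.H.MP_85b181_al in
theorem result :
    ∃ (Ψ : ∀ (M : Type u) [AddCommMonoid M], Type u)
      (_ : ∀ (M : Type u) [AddCommMonoid M], NonUnitalRing (Ψ M))
      (F : ∀ (M N : Type u) [AddCommMonoid M] [AddCommMonoid N], (M →+ N) → (Ψ M →ₙ+* Ψ N))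
      (φ : ∀ (M : Type u) [AddCommMonoid M] (k : ℕ), Matrix (Fin k) (Fin k) (Ψ M) → M),
      (∀ (M : Type u) [AddCommMonoid M], F M M (AddMonoidHom.id M) = NonUnitalRingHom.id (Ψ M)) ∧
      (∀ (M N P : Type u) [AddCommMonoid M] [AddCommMonoid N] [AddCommMonoid P]
        (f : M →+ N) (g : N →+ P), F M P (g.comp f) = (F N P g).comp (F M N f)) ∧
      (∀ (M : Type u) [AddCommMonoid M], Conical M →
        (∀ (k l : ℕ) (p : Matrix (Fin k) (Fin k) (Ψ M)) (q : Matrix (Fin l) (Fin l) (Ψ M)),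
          p * p = p → q * q = q →
          (φ M k p = φ M l q ↔ ∃ (x : Matrix (Fin k) (Fin l) (Ψ M))
            (y : Matrix (Fin l) (Fin k) (Ψ M)), p = x * y ∧ q = y * x) ∧
          φ M (k + l) (Matrix.reindex finSumFinEquiv finSumFinEquiv (Matrix.fromBlocks p 0 0 q))
            = φ M k p + φ M l q) ∧
        (∀ k : ℕ, φ M k 0 = 0) ∧
        ∀ z : M, ∃ (k : ℕ) (p : Matrix (Fin k) (Fin k) (Ψ M)), p * p = p ∧ φ M k p = z) ∧
      ∀ (M N : Type u) [AddCommMonoid M] [AddCommMonoid N], Conical M → Conical N →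
        ∀ (f : M →+ N) (k : ℕ) (p : Matrix (Fin k) (Fin k) (Ψ M)), p * p = p →
          φ N k (p.map (F M N f)) = f (φ M k p) := by
  refine ⟨fun M _ => R M, fun M _ => inferInstance, fun M N _ _ f => Fm f, fun M _ k p => cls p,
    fun M _ => Fm_id, fun M N P _ _ _ f g => Fm_comp f g,
    fun M _ hc => ⟨fun k l p q hp hq => ?_, fun k => ?_, fun z => ?_⟩,
    fun M N _ _ hM hN f k p hp => ?_⟩
  · have hp' : up p * up p = up p := by rw [← up_mul, hp]
    have hq' : up q * up q = up q := by rw [← up_mul, hq]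
    refine ⟨⟨fun h => ?_, ?_⟩, ?_⟩
    · have h' : cls p = cls q := h
      obtain ⟨x, y, a, b⟩ := Eqv_down hp hq
        ((cls_spec hc hp).trans (h' ▸ (cls_spec hc hq).symm) hp' hq')
      exact ⟨x, y, a.symm, b.symm⟩
    · rintro ⟨x, y, a, b⟩
      exact cls_eq hc hp (Eqv.trans ⟨up x, up y, by rw [← up_mul, a], by rw [← up_mul, b]⟩
        (cls_spec hc hq) hp' (pm_pm _))
    · have e1 : Matrix.fromBlocks p 0 0 q * Matrix.fromBlocks p 0 0 q =
          Matrix.fromBlocks p 0 0 q := by simp [Matrix.fromBlocks_multiply, hp, hq]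
      have e2 : up (Matrix.fromBlocks p 0 0 q) = Matrix.fromBlocks (up p) 0 0 (up q) := by
        ext (i | i) (j | j) <;> rfl
      have e3 := Eqv_add (cls_spec hc hp) (cls_spec hc hq) hp' hq'
      rw [← e2] at e3
      have e4 : Matrix.reindex finSumFinEquiv finSumFinEquiv (Matrix.fromBlocks p 0 0 q) *
          Matrix.reindex finSumFinEquiv finSumFinEquiv (Matrix.fromBlocks p 0 0 q) =
          Matrix.reindex finSumFinEquiv finSumFinEquiv (Matrix.fromBlocks p 0 0 q) := by
        simp only [Matrix.reindex_apply, Matrix.submatrix_mul_equiv, e1]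
      obtain ⟨P, Q, a, b⟩ := e3
      refine cls_eq hc e4 ⟨P.submatrix finSumFinEquiv.symm id, Q.submatrix id finSumFinEquiv.symm,
        ?_, ?_⟩
      · rw [← Matrix.submatrix_mul _ _ _ _ _ Function.bijective_id, a]; rfl
      · rw [Matrix.submatrix_mul_equiv, b]; rfl
  · refine cls_eq hc (by simp) ⟨0, 0, ?_, ?_⟩
    · ext; simp [up]
    · ext; simp [pm, PF.p0]
  · let a : R M := ⟨(can M).p false z, by change χ M _ = 0; simp [χ, zer]⟩
    have ha : a * a = a := Subtype.ext ((can M).pp false z)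
    have e : (Matrix.of fun _ _ => a : Matrix (Fin 1) (Fin 1) (R M)) * Matrix.of (fun _ _ => a) =
        Matrix.of fun _ _ => a := by ext1; simp [Matrix.mul_apply, ha]
    refine ⟨1, _, e, cls_eq hc e ⟨fun _ _ => a.1, fun _ _ => a.1, ?_, ?_⟩⟩
    · ext; simp [Matrix.mul_apply, up, a, PF.pp]
    · ext; simp [Matrix.mul_apply, pm, a, PF.pp]
  · refine cls_eq hN (by rw [← Matrix.map_mul, hp]) ?_
    have := (cls_spec hM hp).map ((push f).lift : AA M →ₙ+* AA N)
    have e : (pm (cls p)).map ((push f).lift : AA M →ₙ+* AA N) = pm (f (cls p)) := by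
      ext; exact PF.lift_p _ _ _
    rw [e] at this
    exact this

end Pool.Agent.Results.MP_85b181_al.Functor
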